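import Pool.Agent.W837.GB.Defs

set_option autoImplicit false
open MeasureTheory ProbabilityTheory Filter Topology
open scoped NNReal Matrix ComplexOrder

namespace Pool.Agent.W646.GB

open Pool.Agent.W837.GB

theorem ev_real (m K0 : ℕ) (A B g : ℝ) (hm : 1 ≤ m) (hB : 0 ≤ B) (hg : 0 < g) :
    ∀ᶠ x : ℝ in atTop, 4 * (K0 : ℝ) ≤ x ^ (3 / 100 : ℝ) ∧ 4 * (m : ℝ) ≤ x ^ (2 / 100 : ℝ) ∧
      (2 : ℝ) ^ 21 ≤ x ∧ (A + B * Real.log x) * (2 * x ^ (97 / 100 : ℝ)) < g * m / 2 * x := by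
  have hmr : (0 : ℝ) < m := by exact_mod_cast hm
  have h1 : ∀ᶠ x : ℝ in atTop, 4 * (K0 : ℝ) ≤ x ^ (3 / 100 : ℝ) :=
    (tendsto_rpow_atTop (by norm_num)).eventually_ge_atTop _
  have h2 : ∀ᶠ x : ℝ in atTop, 4 * (m : ℝ) ≤ x ^ (2 / 100 : ℝ) :=
    (tendsto_rpow_atTop (by norm_num)).eventually_ge_atTop _
  have h3 : ∀ᶠ x : ℝ in atTop, A * (16 / (g * m)) ≤ x ^ (3 / 100 : ℝ) :=
    (tendsto_rpow_atTop (by norm_num)).eventually_ge_atTop _
  have h4 : ∀ᶠ x : ℝ in atTop, ‖Real.log x‖ ≤ (g * m / (16 * (B + 1))) * ‖x ^ (3 / 100 : ℝ)‖ :=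
    (isLittleO_log_rpow_atTop (by norm_num : (0 : ℝ) < 3 / 100)).bound (by positivity)
  filter_upwards [h1, h2, h3, h4, eventually_ge_atTop ((2 : ℝ) ^ 21)] with x a1 a2 a3 a4 a5
  have hx : 0 < x := lt_of_lt_of_le (by norm_num) a5
  refine ⟨a1, a2, a5, ?_⟩
  obtain ⟨y, hy⟩ : ∃ y, y = x ^ (3 / 100 : ℝ) := ⟨_, rfl⟩
  obtain ⟨z, hz⟩ : ∃ z, z = x ^ (97 / 100 : ℝ) := ⟨_, rfl⟩
  have hy0 : 0 < y := by rw [hy]; exact Real.rpow_pos_of_pos hx _
  have hz0 : 0 < z := by rw [hz]; exact Real.rpow_pos_of_pos hx _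
  have hyz : y * z = x := by
    rw [hy, hz, ← Real.rpow_add hx]; norm_num
  rw [← hy] at a3 a4
  rw [← hz]
  have hA : A ≤ g * m / 16 * y := by
    rw [mul_div_assoc', div_le_iff₀ (by positivity)] at a3
    linarith
  have hlog : Real.log x ≤ g * m / (16 * (B + 1)) * y := by
    have := (le_abs_self _).trans a4
    rwa [Real.norm_of_nonneg hy0.le] at this
  have hBl : B * Real.log x ≤ g * m / 16 * y := by
    calc B * Real.log x ≤ B * (g * m / (16 * (B + 1)) * y) := by gcongr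
      _ = (B / (B + 1)) * (g * m / 16 * y) := by field_simp
      _ ≤ 1 * (g * m / 16 * y) := by
          gcongr
          rw [div_le_one (by linarith)]; linarith
      _ = _ := one_mul _
  calc (A + B * Real.log x) * (2 * z) ≤ (g * m / 16 * y + g * m / 16 * y) * (2 * z) := by gcongr
    _ = g * m / 4 * (y * z) := by ring
    _ = g * m / 4 * x := by rw [hyz]
    _ < g * m / 2 * x := by
        have : 0 < g * m * x := by positivity
        linarith

theorem asy : S_ASY := by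
  intro m K0 C ε hm hK0 hC hε hε2
  obtain ⟨x0, hx0⟩ : ∃ x0, x0 = Real.exp (-(1 / 2)) - ε := ⟨_, rfl⟩
  have hx0p : 0 < x0 := by rw [hx0]; linarith
  have hlog : Real.log x0 < -(1 / 2) := by
    rw [Real.log_lt_iff_lt_exp hx0p, hx0]; linarith
  obtain ⟨g, hg⟩ : ∃ g, g = -(1 / 2) - Real.log x0 := ⟨_, rfl⟩
  have hgp : 0 < g := by rw [hg]; linarith
  have hCr : (1 : ℝ) ≤ C := by exact_mod_cast hC
  have hmr : (1 : ℝ) ≤ m := by exact_mod_cast hm
  have hK0r : (1 : ℝ) ≤ K0 := by exact_mod_cast hK0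
  have hev := tendsto_natCast_atTop_atTop.eventually
    (ev_real m K0 (m * K0 + C * Real.log C + 1) (C * (3 / 2 + C)) g hm (by positivity) hgp)
  obtain ⟨N0, hN0⟩ := eventually_atTop.1 hev
  refine ⟨g, hgp, N0, fun N hN => ?_⟩
  obtain ⟨b1, b2, b3, b4⟩ := hN0 N hN
  have hNp : (0 : ℝ) < N := lt_of_lt_of_le (by norm_num) b3
  have hN1 : (1 : ℝ) ≤ N := le_trans (by norm_num) b3
  obtain ⟨z, hz⟩ : ∃ z, z = (N : ℝ) ^ (97 / 100 : ℝ) := ⟨_, rfl⟩
  rw [← hz] at b4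
  have hz1 : 1 ≤ z := by rw [hz]; exact Real.one_le_rpow hN1 (by norm_num)
  obtain ⟨k1, hk1⟩ : ∃ k1, k1 = ⌈z⌉₊ := ⟨_, rfl⟩
  have hk1a : z ≤ k1 := by rw [hk1]; exact Nat.le_ceil z
  have hk1b : (k1 : ℝ) ≤ 2 * z := by
    have : (k1 : ℝ) < z + 1 := by rw [hk1]; exact Nat.ceil_lt_add_one (by linarith)
    linarith
  have hk1p : 1 ≤ k1 := by
    have : (1 : ℝ) ≤ k1 := hz1.trans hk1a
    exact_mod_cast this
  have hyz : (N : ℝ) ^ (3 / 100 : ℝ) * z = N := by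
    rw [hz, ← Real.rpow_add hNp]; norm_num
  have hKk : (K0 : ℝ) * k1 ≤ N / 2 := by
    have h1 : 4 * (K0 : ℝ) * z ≤ N := by
      calc 4 * (K0 : ℝ) * z ≤ (N : ℝ) ^ (3 / 100 : ℝ) * z := by gcongr
        _ = N := hyz
    have h2 : (K0 : ℝ) * k1 ≤ K0 * (2 * z) := by gcongr
    linarith
  have hKkN : K0 * k1 ≤ N := by
    have : ((K0 * k1 : ℕ) : ℝ) ≤ N := by push_cast; linarith
    exact_mod_cast this
  obtain ⟨N', hN'⟩ : ∃ N', N' = N - K0 * k1 := ⟨_, rfl⟩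
  have hNN : N = N' + K0 * k1 := by omega
  have hN'r : (N' : ℝ) = N - K0 * k1 := by
    have : (N : ℝ) = N' + K0 * k1 := by exact_mod_cast hNN
    linarith
  have hN'2 : (N : ℝ) ≤ 2 * N' := by rw [hN'r]; linarith
  have hN'p : (0 : ℝ) < N' := by linarith
  have hN'1 : 1 ≤ N' := by
    rcases Nat.eq_zero_or_pos N' with h | h
    · rw [h] at hN'p; simp at hN'p
    · exact h
  have hN'le : (N' : ℝ) ≤ N := by
    rw [hN'r]
    have : (0 : ℝ) ≤ K0 * k1 := by positivity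
    linarith
  have hdl0 : 0 < dl N' := by unfold dl; exact Real.rpow_pos_of_pos hN'p _
  have hdlN : dl N' * N' = (N' : ℝ) ^ (19 / 20 : ℝ) := by
    unfold dl
    conv_lhs => rw [← Real.rpow_one (N' : ℝ), ← Real.rpow_mul hN'p.le, ← Real.rpow_add hN'p]
    norm_num
  have hdl : dl N' ≤ 1 / 2 := by
    have h20 : (2 : ℝ) ^ 20 ≤ N' := by
      have : (2 : ℝ) ^ 21 = 2 * 2 ^ 20 := by norm_num
      linarith
    unfold dl
    rw [Real.rpow_neg hN'p.le]
    have h2 : (2 : ℝ) ≤ (N' : ℝ) ^ (1 / 20 : ℝ) := by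
      calc (2 : ℝ) = ((2 : ℝ) ^ (20 : ℕ)) ^ (1 / 20 : ℝ) := by
            rw [← Real.rpow_natCast, ← Real.rpow_mul (by norm_num)]
            norm_num
        _ ≤ (N' : ℝ) ^ (1 / 20 : ℝ) := Real.rpow_le_rpow (by norm_num) h20 (by norm_num)
    rw [one_div (2 : ℝ)]
    exact inv_anti₀ (by norm_num) h2
  have h4m : 4 * m * dl N' * N' ≤ k1 := by
    have h1 : 4 * (m : ℝ) * dl N' * N' = 4 * m * (dl N' * N') := by ring
    rw [h1, hdlN]
    calc 4 * (m : ℝ) * (N' : ℝ) ^ (19 / 20 : ℝ) ≤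
        (N : ℝ) ^ (2 / 100 : ℝ) * (N : ℝ) ^ (19 / 20 : ℝ) := by gcongr
      _ = z := by rw [hz, ← Real.rpow_add hNp]; norm_num
      _ ≤ k1 := hk1a
  refine ⟨k1, N', hk1p, hN'1, hNN, hN'2, hdl, h4m, ?_⟩
  rw [← hx0]
  have hk1r : (0 : ℝ) < k1 := by exact_mod_cast hk1p
  have hsq : 0 < Real.sqrt (N / N') := Real.sqrt_pos.2 (div_pos hNp hN'p)
  have hrt : 0 < rt N := by unfold rt; exact Real.rpow_pos_of_pos hNp _
  have hNk : (0 : ℝ) < N' + k1 := by linarith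
  have hCp : (0 : ℝ) < C := by linarith
  rw [← Real.log_lt_log_iff (by positivity) (by positivity)]
  rw [Real.log_pow, Real.log_mul hsq.ne' hx0p.ne', Real.log_sqrt (div_nonneg hNp.le hN'p.le),
    Real.log_mul (by positivity) (Real.exp_pos _).ne', Real.log_exp, Real.log_pow,
    Real.log_div hrt.ne' (by positivity), Real.log_mul hCp.ne' (by positivity), Real.log_pow]
  have hlrt : Real.log (rt N) = -(3 / 2) * Real.log N := by
    unfold rt; rw [Real.log_rpow hNp]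
  rw [hlrt]
  have hlogN0 : 0 ≤ Real.log N := Real.log_nonneg hN1
  have hlNk : Real.log (N' + k1 : ℝ) ≤ Real.log N := by
    apply Real.log_le_log hNk
    rw [hN'r]
    have : (1 : ℝ) * k1 ≤ K0 * k1 := by gcongr
    linarith
  have hlq : Real.log ((N : ℝ) / N') ≤ 2 * (K0 * k1) / N := by
    have h1 := Real.log_le_sub_one_of_pos (div_pos hNp hN'p)
    have h2 : (N : ℝ) / N' - 1 = K0 * k1 / N' := by
      field_simp
      rw [hN'r]; ring
    rw [h2] at h1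
    refine h1.trans ?_
    rw [div_le_div_iff₀ hN'p hNp]
    have h3 : (0 : ℝ) ≤ K0 * k1 := by positivity
    have h4 := mul_le_mul_of_nonneg_left hN'2 h3
    linarith
  -- left side
  have hL : ((m * N : ℕ) : ℝ) * (Real.log ((N : ℝ) / N') / 2 + Real.log x0) ≤
      m * K0 * k1 + m * N * Real.log x0 := by
    push_cast
    have h1 : (m : ℝ) * N * (Real.log ((N : ℝ) / N') / 2) ≤
        m * N * ((2 * (K0 * k1) / N) / 2) := by gcongr
    have h2 : (m : ℝ) * N * ((2 * (K0 * k1) / N) / 2) = m * K0 * k1 := by field_simp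
    rw [h2] at h1
    rw [mul_add]
    linarith
  have hR1 : -((k1 : ℝ) * (C * ((3 / 2 + C) * Real.log N + Real.log C))) ≤
      ((C * k1 : ℕ) : ℝ) * (-(3 / 2) * Real.log N - (Real.log C + C * Real.log (N' + k1 : ℝ))) := by
    push_cast
    have h1 : (C : ℝ) * Real.log (N' + k1 : ℝ) ≤ C * Real.log N := by gcongr
    have h2 : -((k1 : ℝ) * (C * ((3 / 2 + C) * Real.log N + Real.log C))) =
      (C : ℝ) * k1 * (-(3 / 2) * Real.log N - (Real.log C + C * Real.log N)) := by ring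
    rw [h2]
    gcongr
  have hR2 : -(m * N * (1 + g) / 2) - (k1 : ℝ) ≤
      -(m * N' * (1 + g) / 2) - 2 * m * dl N' * N' := by
    have h1 : (m : ℝ) * N' * (1 + g) / 2 ≤ m * N * (1 + g) / 2 := by gcongr
    have h2 : 2 * (m : ℝ) * dl N' * N' ≤ k1 := by
      have h3 : 2 * (m : ℝ) * dl N' * N' = (4 * m * dl N' * N') / 2 := by ring
      rw [h3]
      linarith
    linarith
  have hmain : (k1 : ℝ) * ((m * K0 + C * Real.log C + 1) + C * (3 / 2 + C) * Real.log N) <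
      g * m / 2 * N := by
    refine lt_of_le_of_lt ?_ b4
    have hnn : 0 ≤ (m * K0 + C * Real.log C + 1) + C * (3 / 2 + C) * Real.log N := by
      have : 0 ≤ Real.log C := Real.log_nonneg hCr
      positivity
    calc (k1 : ℝ) * ((m * K0 + C * Real.log C + 1) + C * (3 / 2 + C) * Real.log N)
        ≤ (2 * z) * ((m * K0 + C * Real.log C + 1) + C * (3 / 2 + C) * Real.log N) := by gcongr
      _ = _ := by ring
  have hfin : (m : ℝ) * K0 * k1 + m * N * Real.log x0 <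
      -((k1 : ℝ) * (C * ((3 / 2 + C) * Real.log N + Real.log C))) +
        (-(m * N * (1 + g) / 2) - (k1 : ℝ)) := by
    have hlx : Real.log x0 = -(1 / 2) - g := by rw [hg]; ring
    rw [hlx]
    linarith
  linarith

end Pool.Agent.W646.GB
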