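import Pool.Agent.W837.GB.Defs

set_option autoImplicit false
open MeasureTheory ProbabilityTheory Filter Topology
open scoped NNReal Matrix ComplexOrder

namespace Pool.Agent.W646.GB

open Pool.Agent.W837.GB

theorem W_scale {n m N : ℕ} (a : Fin n → Matrix (Fin m) (Fin m) ℂ)
    (U V : Matrix (Fin m) (Fin m) ℂ) (g : Fin n × Fin N × Fin N → ℝ) :
    W (fun j => U * a j * V) g = Matrix.kronecker U (1 : Matrix (Fin N) (Fin N) ℂ) * W a g *
      Matrix.kronecker V (1 : Matrix (Fin N) (Fin N) ℂ) := by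
  unfold W
  rw [Finset.mul_sum, Finset.sum_mul]
  refine Finset.sum_congr rfl fun j _ => ?_
  have h1 := Matrix.mul_kronecker_mul U (a j) (1 : Matrix (Fin N) (Fin N) ℂ)
    (Hm fun k l => g (j, k, l))
  have h2 := Matrix.mul_kronecker_mul (U * a j) V
    ((1 : Matrix (Fin N) (Fin N) ℂ) * (Hm fun k l => g (j, k, l))) (1 : Matrix (Fin N) (Fin N) ℂ)
  rw [h1] at h2
  rw [Matrix.one_mul, Matrix.mul_one] at h2
  exact h2

theorem dns : S_DNS := by
  intro n m N a U V g hm hN
  have hmr : (0 : ℝ) < m := by exact_mod_cast hm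
  have hNr : (0 : ℝ) < N := by exact_mod_cast hN
  have h1 : AN (fun j => U * a j * V) N g =
      Matrix.kronecker U (1 : Matrix (Fin N) (Fin N) ℂ) * AN a N g *
      Matrix.kronecker V (1 : Matrix (Fin N) (Fin N) ℂ) := by
    unfold AN
    rw [W_scale, Matrix.mul_smul, Matrix.smul_mul]
  have h2 : (AN (fun j => U * a j * V) N g).det = U.det ^ N * (AN a N g).det * V.det ^ N := by
    have hU : (Matrix.kronecker U (1 : Matrix (Fin N) (Fin N) ℂ)).det = U.det ^ N := by
      have := Matrix.det_kronecker U (1 : Matrix (Fin N) (Fin N) ℂ)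
      rw [Matrix.det_one, one_pow, mul_one, Fintype.card_fin] at this
      exact this
    have hV : (Matrix.kronecker V (1 : Matrix (Fin N) (Fin N) ℂ)).det = V.det ^ N := by
      have := Matrix.det_kronecker V (1 : Matrix (Fin N) (Fin N) ℂ)
      rw [Matrix.det_one, one_pow, mul_one, Fintype.card_fin] at this
      exact this
    rw [h1, Matrix.det_mul, Matrix.det_mul, hU, hV]
  unfold DN
  rw [h2, norm_mul, norm_mul, norm_pow, norm_pow]
  rw [show ‖U.det‖ ^ N * ‖(AN a N g).det‖ * ‖V.det‖ ^ N =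
    (‖U.det‖ * ‖V.det‖) ^ N * ‖(AN a N g).det‖ by rw [mul_pow]; ring]
  rw [Real.mul_rpow (by positivity) (norm_nonneg _)]
  congr 1
  rw [← Real.rpow_natCast, ← Real.rpow_mul (by positivity)]
  congr 1
  field_simp

end Pool.Agent.W646.GB
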