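import Pool.Agent.W837.GB.Defs

set_option autoImplicit false
open MeasureTheory ProbabilityTheory Filter Topology
open scoped NNReal Matrix ComplexOrder

namespace Pool.Agent.W646.GB

open Pool.Agent.W837.GB

theorem hasDerivAt_det {ι : Type} [Fintype ι] [DecidableEq ι] (X Y : Matrix ι ι ℂ)
    (hX : X.det ≠ 0) :
    HasDerivAt (fun t : ℂ => (X + t • Y).det) (X.det * (X⁻¹ * Y).trace) 0 := by
  have hXu : IsUnit X.det := isUnit_iff_ne_zero.2 hX
  obtain ⟨P, hP⟩ : ∃ P : Polynomial ℂ, ∀ r : ℂ, (1 + r • (X⁻¹ * Y)).det =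
      1 + (X⁻¹ * Y).trace * r + P.eval r * r ^ 2 := ⟨_, fun r => Matrix.det_one_add_smul r _⟩
  have hfun : (fun t : ℂ => (X + t • Y).det) =
      fun t : ℂ => X.det * (1 + (X⁻¹ * Y).trace * t + P.eval t * t ^ 2) := by
    funext t
    rw [← hP, ← Matrix.det_mul]
    congr 1
    rw [Matrix.mul_add, Matrix.mul_one, Matrix.mul_smul, ← Matrix.mul_assoc,
      Matrix.mul_nonsing_inv X hXu, Matrix.one_mul]
  rw [hfun]
  have h1 : HasDerivAt (fun t : ℂ => (X⁻¹ * Y).trace * t) ((X⁻¹ * Y).trace * 1) 0 :=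
    (hasDerivAt_id' (0 : ℂ)).const_mul _
  have h2 : HasDerivAt (fun t : ℂ => P.eval t * t ^ 2)
      (P.derivative.eval 0 * (0 : ℂ) ^ 2 + P.eval 0 * ((2 : ℕ) * (0 : ℂ) ^ (2 - 1) * 1)) 0 :=
    (P.hasDerivAt 0).mul ((hasDerivAt_id' (0 : ℂ)).pow 2)
  have h3 := (((hasDerivAt_const (0 : ℂ) (1 : ℂ)).add h1).add h2).const_mul X.det
  refine h3.congr_deriv ?_
  simp

theorem nonneg_of_right {F : ℝ → ℝ} {F' : ℝ} (h : HasDerivAt F F' 0) (h0 : F 0 = 0)
    (hp : ∀ t : ℝ, 0 ≤ t → 0 ≤ F t) : 0 ≤ F' := by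
  have h1 := h.tendsto_slope_zero_right
  refine ge_of_tendsto h1 ?_
  filter_upwards [self_mem_nhdsWithin] with t ht
  have ht' : (0 : ℝ) < t := ht
  rw [zero_add, h0, sub_zero, smul_eq_mul]
  exact mul_nonneg (inv_nonneg.2 ht'.le) (hp t ht'.le)

theorem det_re {ι : Type} [Fintype ι] [DecidableEq ι] {X : Matrix ι ι ℂ} (hX : X.PosDef) :
    0 < X.det.re ∧ X.det = ((X.det.re : ℝ) : ℂ) := by
  have h := hX.det_pos
  rw [Complex.lt_def] at h
  refine ⟨h.1, ?_⟩
  apply Complex.ext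
  · simp
  · simpa using h.2.symm

theorem eta_add {n m : ℕ} (a : Fin n → Matrix (Fin m) (Fin m) ℂ) (b h : Matrix (Fin m) (Fin m) ℂ)
    (t : ℂ) : eta a (b + t • h) = eta a b + t • eta a h := by
  unfold eta
  rw [Finset.smul_sum, ← Finset.sum_add_distrib]
  refine Finset.sum_congr rfl fun j _ => ?_
  rw [Matrix.mul_add, Matrix.add_mul, Matrix.mul_smul, Matrix.smul_mul]

theorem trace_eta {n m : ℕ} (a : Fin n → Matrix (Fin m) (Fin m) ℂ)
    (c h : Matrix (Fin m) (Fin m) ℂ) : (c * eta a h).trace = (etas a c * h).trace := by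
  unfold eta etas
  rw [Finset.mul_sum, Finset.sum_mul, Matrix.trace_sum, Matrix.trace_sum]
  refine Finset.sum_congr rfl fun j _ => ?_
  rw [← Matrix.mul_assoc, ← Matrix.mul_assoc, Matrix.trace_mul_comm, ← Matrix.mul_assoc,
    ← Matrix.mul_assoc]

open scoped MatrixOrder in
theorem psd_sq {ι : Type} [Fintype ι] {A : Matrix ι ι ℂ} (hA : A.PosSemidef) :
    ∃ B : Matrix ι ι ℂ, A = Bᴴ * B := by
  classical
  exact CStarAlgebra.nonneg_iff_eq_star_mul_self.mp hA.nonneg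

theorem lag : S_LAG := by
  intro n m a b0 hb0 hE hmin
  obtain ⟨E, hEd⟩ : ∃ E, E = eta a b0 := ⟨_, rfl⟩
  rw [← hEd] at hE ⊢
  obtain ⟨Z, hZ⟩ : ∃ Z, Z = etas a E⁻¹ - b0⁻¹ := ⟨_, rfl⟩
  obtain ⟨hEpos, hEre⟩ := det_re hE
  obtain ⟨hbpos, hbre⟩ := det_re hb0
  have hEne : E.det ≠ 0 := by rw [hEre]; exact_mod_cast hEpos.ne'
  have hbne : b0.det ≠ 0 := by rw [hbre]; exact_mod_cast hbpos.ne'
  -- first variation
  have hvar : ∀ h : Matrix (Fin m) (Fin m) ℂ, h.PosSemidef → 0 ≤ (Z * h).trace.re := by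
    intro h hh
    obtain ⟨F, hF⟩ : ∃ F : ℝ → ℝ, F = fun t : ℝ => (E + (t : ℂ) • eta a h).det.re * b0.det.re -
        E.det.re * (b0 + (t : ℂ) • h).det.re := ⟨_, rfl⟩
    have hF0 : F 0 = 0 := by rw [hF]; simp
    have hFp : ∀ t : ℝ, 0 ≤ t → 0 ≤ F t := by
      intro t ht
      have hpd : (b0 + (t : ℂ) • h).PosDef := by
        apply hb0.add_posSemidef
        exact hh.smul (by exact_mod_cast ht)
      have h1 := hmin _ hpd
      rw [eta_add, ← hEd] at h1
      have h2 := (det_re hpd).1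
      rw [div_le_div_iff₀ hbpos h2] at h1
      rw [hF]
      simp only
      linarith
    have hd1 : HasDerivAt (fun t : ℝ => (E + (t : ℂ) • eta a h).det.re)
        (E.det * (E⁻¹ * eta a h).trace).re 0 := by
      have := hasDerivAt_det E (eta a h) hEne
      have h2 : HasDerivAt (fun t : ℂ => (E + t • eta a h).det) (E.det * (E⁻¹ * eta a h).trace)
        ((0 : ℝ) : ℂ) := by simpa using this
      exact h2.real_of_complex
    have hd2 : HasDerivAt (fun t : ℝ => (b0 + (t : ℂ) • h).det.re)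
        (b0.det * (b0⁻¹ * h).trace).re 0 := by
      have := hasDerivAt_det b0 h hbne
      have h2 : HasDerivAt (fun t : ℂ => (b0 + t • h).det) (b0.det * (b0⁻¹ * h).trace)
        ((0 : ℝ) : ℂ) := by simpa using this
      exact h2.real_of_complex
    have hdF : HasDerivAt F ((E.det * (E⁻¹ * eta a h).trace).re * b0.det.re -
        E.det.re * (b0.det * (b0⁻¹ * h).trace).re) 0 := by
      rw [hF]
      exact (hd1.mul_const _).sub (hd2.const_mul _)
    have hnn := nonneg_of_right hdF hF0 hFp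
    rw [hEre, hbre, Complex.re_ofReal_mul, Complex.re_ofReal_mul, Complex.ofReal_re,
      Complex.ofReal_re, trace_eta] at hnn
    have h3 : (E.det.re * b0.det.re) * ((etas a E⁻¹ * h).trace.re - (b0⁻¹ * h).trace.re) =
      E.det.re * (etas a E⁻¹ * h).trace.re * b0.det.re -
        E.det.re * (b0.det.re * (b0⁻¹ * h).trace.re) := by ring
    rw [← h3] at hnn
    have h4 := nonneg_of_mul_nonneg_right hnn (mul_pos hEpos hbpos)
    rw [hZ, Matrix.sub_mul, Matrix.trace_sub, Complex.sub_re]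
    exact h4
  have hZh : Z.IsHermitian := by
    have h1 : (E⁻¹)ᴴ = E⁻¹ := hE.inv.isHermitian
    have h2 : (b0⁻¹)ᴴ = b0⁻¹ := hb0.inv.isHermitian
    have h3 : (etas a E⁻¹)ᴴ = etas a E⁻¹ := by
      unfold etas
      rw [Matrix.conjTranspose_sum]
      refine Finset.sum_congr rfl fun j _ => ?_
      rw [Matrix.conjTranspose_mul, Matrix.conjTranspose_mul, Matrix.conjTranspose_conjTranspose,
        h1, Matrix.mul_assoc]
    show Zᴴ = Z
    rw [hZ, Matrix.conjTranspose_sub, h3, h2]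
  have hZp : Z.PosSemidef := by
    refine Matrix.PosSemidef.of_dotProduct_mulVec_nonneg hZh fun x => ?_
    have h1 := hvar _ (Matrix.posSemidef_vecMulVec_self_star x)
    have h2 : (Z * Matrix.vecMulVec x (star x)).trace = star x ⬝ᵥ (Z *ᵥ x) := by
      rw [Matrix.mul_vecMulVec, Matrix.trace_vecMulVec, dotProduct_comm]
    rw [h2] at h1
    have h3 : (star x ⬝ᵥ (Z *ᵥ x)).im = 0 := by
      have h4 : star (star x ⬝ᵥ (Z *ᵥ x)) = star x ⬝ᵥ (Z *ᵥ x) := by
        rw [← Matrix.star_dotProduct_star, star_star, Matrix.star_mulVec, hZh.eq,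
          Matrix.dotProduct_mulVec, dotProduct_comm]
      exact Complex.conj_eq_iff_im.1 h4
    rw [Complex.le_def]
    exact ⟨by simpa using h1, by simpa using h3.symm⟩
  have htr : (Z * b0).trace = 0 := by
    rw [hZ, Matrix.sub_mul, Matrix.trace_sub, ← trace_eta, ← hEd,
      Matrix.nonsing_inv_mul E (isUnit_iff_ne_zero.2 hEne),
      Matrix.nonsing_inv_mul b0 (isUnit_iff_ne_zero.2 hbne), sub_self]
  obtain ⟨B, hB⟩ := psd_sq hb0.posSemidef
  have hBne : B.det ≠ 0 := by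
    intro h0
    apply hbne
    rw [hB, Matrix.det_mul, h0, mul_zero]
  have hBZ : (B * Z * Bᴴ).PosSemidef := hZp.mul_mul_conjTranspose_same B
  have hBZt : (B * Z * Bᴴ).trace = 0 := by
    rw [Matrix.mul_assoc, Matrix.trace_mul_comm, Matrix.mul_assoc, ← hB]
    exact htr
  have hBZ0 := hBZ.trace_eq_zero_iff.1 hBZt
  have hZ0 : Z = 0 := by
    have hBu : IsUnit B.det := isUnit_iff_ne_zero.2 hBne
    have hBu' : IsUnit (Bᴴ).det := by
      rw [Matrix.det_conjTranspose]; exact hBu.star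
    calc Z = B⁻¹ * (B * Z * Bᴴ) * (Bᴴ)⁻¹ := by
          rw [Matrix.mul_assoc B Z, ← Matrix.mul_assoc B⁻¹, Matrix.nonsing_inv_mul B hBu,
            Matrix.one_mul, Matrix.mul_assoc, Matrix.mul_nonsing_inv _ hBu', Matrix.mul_one]
      _ = 0 := by rw [hBZ0]; simp
  rw [hZ, sub_eq_zero] at hZ0
  exact hZ0

end Pool.Agent.W646.GB
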