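import Pool.Agent.W837.GB.Defs

set_option autoImplicit false
open MeasureTheory ProbabilityTheory Filter Topology
open scoped NNReal Matrix ComplexOrder

namespace Pool.Agent.W646.GB

open Pool.Agent.W837.GB

theorem det_add_smul {ι : Type} [Fintype ι] [DecidableEq ι] {A : Matrix ι ι ℂ}
    (hA : A.IsHermitian) (c : ℝ) :
    (A + (c : ℂ) • (1 : Matrix ι ι ℂ)).det = ((∏ i, (hA.eigenvalues i + c) : ℝ) : ℂ) := by
  have h1 : A.charpoly.eval (-(c : ℂ)) = (Matrix.scalar ι (-(c : ℂ)) - A).det :=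
    Matrix.eval_charpoly A _
  have h2 : Matrix.scalar ι (-(c : ℂ)) - A = -(A + (c : ℂ) • (1 : Matrix ι ι ℂ)) := by
    ext i j
    simp only [Matrix.scalar_apply, Matrix.sub_apply, Matrix.neg_apply, Matrix.add_apply,
      Matrix.smul_apply, Matrix.one_apply, Matrix.diagonal_apply, smul_eq_mul]
    split_ifs <;> ring
  rw [h2, Matrix.det_neg, hA.charpoly_eq, Polynomial.eval_prod] at h1
  have h3 : ∏ i, Polynomial.eval (-(c : ℂ)) (Polynomial.X - Polynomial.C ((hA.eigenvalues i : ℝ) : ℂ)) =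
      (-1) ^ Fintype.card ι * ∏ i, (((hA.eigenvalues i : ℝ) : ℂ) + c) := by
    rw [← Finset.card_univ, ← Finset.prod_const, ← Finset.prod_mul_distrib]
    refine Finset.prod_congr rfl fun i _ => ?_
    simp only [Polynomial.eval_sub, Polynomial.eval_X, Polynomial.eval_C]
    ring
  have h4 : ∏ i, Polynomial.eval (-(c : ℂ)) (Polynomial.X - Polynomial.C ((hA.eigenvalues i : ℝ) : ℂ)) =
      (-1) ^ Fintype.card ι * (A + (c : ℂ) • (1 : Matrix ι ι ℂ)).det := h1
  rw [h3] at h4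
  have h5 : ((-1 : ℂ) ^ Fintype.card ι) ≠ 0 := pow_ne_zero _ (by norm_num)
  have h6 := mul_left_cancel₀ h5 h4
  rw [← h6]
  push_cast
  rfl

theorem normSq_det_le {ι : Type} [Fintype ι] [DecidableEq ι] (M : Matrix ι ι ℂ) {δ : ℝ}
    (hδ : 0 < δ) : 0 < (Q M δ).det.re ∧ ‖M.det‖ ^ 2 ≤ (Q M δ).det.re := by
  have hps : (M * Mᴴ).PosSemidef := Matrix.posSemidef_self_mul_conjTranspose M
  have hd : (Q M δ).det = ((∏ i, (hps.1.eigenvalues i + δ ^ 2) : ℝ) : ℂ) :=
    det_add_smul hps.1 (δ ^ 2)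
  have hd0 : (M * Mᴴ).det = ((∏ i, hps.1.eigenvalues i : ℝ) : ℂ) := by
    rw [hps.1.det_eq_prod_eigenvalues]
    push_cast
    rfl
  have he : ∀ i, 0 ≤ hps.1.eigenvalues i := fun i => hps.eigenvalues_nonneg i
  rw [hd, Complex.ofReal_re]
  refine ⟨Finset.prod_pos fun i _ => by have := he i; positivity, ?_⟩
  have hn : ((‖M.det‖ ^ 2 : ℝ) : ℂ) = ((∏ i, hps.1.eigenvalues i : ℝ) : ℂ) := by
    rw [← hd0, Matrix.det_mul, Matrix.det_conjTranspose]
    have := Complex.mul_conj M.det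
    rw [Complex.star_def, this, Complex.normSq_eq_norm_sq]
  rw [Complex.ofReal_inj] at hn
  rw [hn]
  exact Finset.prod_le_prod (fun i _ => he i) fun i _ => by have := sq_nonneg δ; linarith

theorem up : S_UP := by
  intro n m N a g δ hm hN hδ
  obtain ⟨h1, h2⟩ := normSq_det_le (AN a N g) hδ
  obtain ⟨D, hD⟩ : ∃ D : ℝ, D = (Q (AN a N g) δ).det.re := ⟨_, rfl⟩
  rw [← hD] at h1 h2
  have hmN : (0 : ℝ) < (m : ℝ) * N := by
    have : (0 : ℝ) < m := by exact_mod_cast hm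
    have : (0 : ℝ) < N := by exact_mod_cast hN
    positivity
  have h3 : ‖(AN a N g).det‖ ≤ Real.exp (Real.log D / 2) := by
    have h4 : Real.exp (Real.log D / 2) ^ 2 = D := by
      rw [← Real.exp_nat_mul]
      rw [show ((2 : ℕ) : ℝ) * (Real.log D / 2) = Real.log D by push_cast; ring, Real.exp_log h1]
    apply le_of_sq_le_sq _ (Real.exp_pos _).le
    rw [h4]; exact h2
  unfold DN ld
  rw [← hD]
  calc ‖(AN a N g).det‖ ^ (1 / ((m : ℝ) * N)) ≤ Real.exp (Real.log D / 2) ^ (1 / ((m : ℝ) * N)) :=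
        Real.rpow_le_rpow (norm_nonneg _) h3 (by positivity)
    _ = Real.exp (Real.log D / (m * N) / 2) := by
        rw [← Real.exp_mul]
        congr 1
        field_simp

end Pool.Agent.W646.GB
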